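import Pool.Agent.H322Z.Rigid.Space

set_option autoImplicit false

/-!
# The completion is a rigid space with trivial dual
-/

namespace Pool.Agent.H322Z.Rigid

open Finset Filter Topology

noncomputable def q (x : E₀) : ℝ := sInf {c | Rep x c}

theorem q_nonneg (x : E₀) : 0 ≤ q x := Real.sInf_nonneg fun _ h => Rep.nonneg h

theorem q_le {x : E₀} {c : ℝ} (h : Rep x c) : q x ≤ c :=
  csInf_le ⟨0, fun _ h => Rep.nonneg h⟩ h

theorem rep_of_lt {x : E₀} {c : ℝ} (h : q x < c) : Rep x c := by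
  obtain ⟨a, ha, hac⟩ := exists_lt_of_csInf_lt (rep_exists x) h
  exact Rep.mono ha hac.le

theorem rep_sq {x : E₀} {a : ℝ} (h : Real.sqrt (q x) < a) : Rep x (a ^ 2) :=
  rep_of_lt ((Real.sqrt_lt' ((Real.sqrt_nonneg _).trans_lt h)).mp h)

theorem sqrt_le_of_rep {x : E₀} {a : ℝ} (ha : 0 ≤ a) (h : Rep x (a ^ 2)) : Real.sqrt (q x) ≤ a :=
  Real.sqrt_le_iff.mpr ⟨ha, q_le h⟩

theorem nq_add (x y : E₀) : Real.sqrt (q (x + y)) ≤ Real.sqrt (q x) + Real.sqrt (q y) := by
  refine le_of_forall_pos_le_add fun ε hε => ?_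
  set a := Real.sqrt (q x) + ε / 2 with ha
  set b := Real.sqrt (q y) + ε / 2 with hb
  have ha0 : 0 < a := by positivity
  have hb0 : 0 < b := by positivity
  have h1 := (rep_sq (x := x) (a := a) (by linarith)).add (rep_sq (x := y) (a := b) (by linarith))
    (b / a) (by positivity)
  have e : (1 + b / a) * a ^ 2 + (1 + 1 / (b / a)) * b ^ 2 = (a + b) ^ 2 := by
    field_simp
    ring
  rw [e] at h1
  have := sqrt_le_of_rep (by positivity) h1
  linarith

theorem nq_smul_le (c : ℝ) (x : E₀) :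
    Real.sqrt (q (c • x)) ≤ Real.sqrt |c| * Real.sqrt (q x) := by
  refine le_of_forall_pos_le_add fun ε hε => ?_
  set w := Real.sqrt |c| with hw
  have hw0 : 0 ≤ w := Real.sqrt_nonneg _
  have hww : w ^ 2 = |c| := Real.sq_sqrt (abs_nonneg c)
  set a := Real.sqrt (q x) + ε / (w + 1) with ha
  have hε' : 0 < ε / (w + 1) := by positivity
  have h1 := (rep_sq (x := x) (a := a) (by linarith)).smul c
  rw [← hww, ← mul_pow] at h1
  have h2 := sqrt_le_of_rep (by positivity) h1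
  have h3 : w * (ε / (w + 1)) ≤ ε := by
    rw [← mul_div_assoc, div_le_iff₀ (by positivity)]
    nlinarith
  rw [ha, mul_add] at h2
  linarith

theorem nq_zero : Real.sqrt (q 0) = 0 := by
  have := nq_smul_le 0 0
  rw [zero_smul, abs_zero, Real.sqrt_zero, zero_mul] at this
  exact le_antisymm this (Real.sqrt_nonneg _)

theorem nq_smul (c : ℝ) (x : E₀) : Real.sqrt (q (c • x)) = Real.sqrt |c| * Real.sqrt (q x) := by
  rcases eq_or_ne c 0 with rfl | hc
  · rw [zero_smul, nq_zero]; simp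
  refine le_antisymm (nq_smul_le c x) ?_
  have h1 := nq_smul_le c⁻¹ (c • x)
  rw [smul_smul, inv_mul_cancel₀ hc, one_smul, abs_inv, Real.sqrt_inv] at h1
  have h2 : 0 < Real.sqrt |c| := Real.sqrt_pos.mpr (abs_pos.mpr hc)
  have h3 := mul_le_mul_of_nonneg_left h1 h2.le
  rwa [← mul_assoc, mul_inv_cancel₀ h2.ne', one_mul] at h3

theorem nq_neg (x : E₀) : Real.sqrt (q (-x)) = Real.sqrt (q x) := by
  have := nq_smul (-1) x
  rw [neg_one_smul] at this
  simpa using this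

/-- the space with its `1/2`-homogeneous group seminorm -/
def E : Type := E₀

noncomputable instance : AddCommGroup E := inferInstanceAs (AddCommGroup E₀)

noncomputable instance : Module ℝ E := inferInstanceAs (Module ℝ E₀)

noncomputable def sn : AddGroupSeminorm E where
  toFun x := Real.sqrt (q x)
  map_zero' := nq_zero
  add_le' := nq_add
  neg' := nq_neg

noncomputable instance : SeminormedAddCommGroup E := sn.toSeminormedAddCommGroup

/-- the identity map -/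
noncomputable def toE : E₀ ≃ₗ[ℝ] E := LinearEquiv.refl ℝ E₀

theorem norm_toE (x : E₀) : ‖toE x‖ = Real.sqrt (q x) := rfl

theorem norm_smul_E (c : ℝ) (x : E) : ‖c • x‖ = Real.sqrt |c| * ‖x‖ := nq_smul c x

instance : UniformContinuousConstSMul ℝ E where
  uniformContinuous_const_smul c := by
    have h : LipschitzWith (Real.sqrt |c|).toNNReal (fun x : E => c • x) := by
      refine LipschitzWith.of_dist_le_mul fun x y => ?_
      rw [dist_eq_norm, dist_eq_norm, ← smul_sub, norm_smul_E,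
        Real.coe_toNNReal _ (Real.sqrt_nonneg _)]
    exact h.uniformContinuous

/-- the rigid space -/
abbrev R : Type := UniformSpace.Completion E

theorem norm_smul_R (c : ℝ) (x : R) : ‖c • x‖ = Real.sqrt |c| * ‖x‖ := by
  refine UniformSpace.Completion.induction_on x ?_ fun a => ?_
  · exact isClosed_eq (continuous_const_smul c).norm (continuous_const.mul continuous_norm)
  · rw [← UniformSpace.Completion.coe_smul, UniformSpace.Completion.norm_coe,
      UniformSpace.Completion.norm_coe, norm_smul_E]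

instance : ContinuousSMul ℝ R where
  continuous_smul := by
    rw [continuous_iff_continuousAt]
    rintro ⟨c₀, x₀⟩
    rw [ContinuousAt, tendsto_iff_norm_sub_tendsto_zero]
    have h1 : Continuous fun p : ℝ × R =>
        Real.sqrt |p.1| * ‖p.2 - x₀‖ + Real.sqrt |p.1 - c₀| * ‖x₀‖ := by fun_prop
    have h2 := h1.tendsto (c₀, x₀)
    simp only [sub_self, norm_zero, mul_zero, abs_zero, Real.sqrt_zero, zero_mul, add_zero] at h2
    refine squeeze_zero (fun _ => norm_nonneg _) (fun p => ?_) h2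
    have e : p.1 • p.2 - c₀ • x₀ = p.1 • (p.2 - x₀) + (p.1 - c₀) • x₀ := by
      rw [smul_sub, sub_smul]; abel
    rw [e, ← norm_smul_R, ← norm_smul_R]
    exact norm_add_le _ _

/-- the canonical map -/
noncomputable def j : E₀ →ₗ[ℝ] R where
  toFun x := ((toE x : E) : R)
  map_add' x y := by rw [map_add, UniformSpace.Completion.coe_add]
  map_smul' c x := by rw [map_smul, UniformSpace.Completion.coe_smul]; rfl

theorem norm_j (x : E₀) : ‖j x‖ = Real.sqrt (q x) := UniformSpace.Completion.norm_coe _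

theorem exists_near (y : R) {ε : ℝ} (hε : 0 < ε) : ∃ x : E₀, ‖y - j x‖ < ε := by
  obtain ⟨x, hx⟩ := (UniformSpace.Completion.denseRange_coe (α := E)).exists_dist_lt y hε
  exact ⟨toE.symm x, by rw [← dist_eq_norm]; exact hx⟩

theorem exists_near_rat (x : E₀) {ε : ℝ} (hε : 0 < ε) : ∃ z, ‖j x - j (castQ z)‖ ≤ ε := by
  obtain ⟨M, hM⟩ := exists_supp x
  have hS := one_le_S' M
  set δ : ℝ := ε ^ 2 / (S M * S M) with hδ
  have hδ0 : 0 < δ := by positivity
  have h1 : ∀ t : ℝ, ∃ g : ℚ, |t - g| ≤ δ ∧ (t = 0 → g = 0) := by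
    intro t
    rcases eq_or_ne t 0 with rfl | ht
    · exact ⟨0, by simpa using hδ0.le, fun _ => rfl⟩
    · obtain ⟨g, hg⟩ := exists_rat_near t hδ0
      exact ⟨g, hg.le, fun h => absurd h ht⟩
  choose g hg hg0 using h1
  refine ⟨x.mapRange g (hg0 0 rfl), ?_⟩
  have h2 : ∀ k, castQ (x.mapRange g (hg0 0 rfl)) k = g (x k) := fun k => by simp [castQ]
  have h3 : Supp M (castQ (x.mapRange g (hg0 0 rfl))) := by
    intro m hm
    ext i
    have := congrFun (hM m hm) i
    rw [blk_apply] at this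
    rw [blk_apply, h2, hg0 _ this]
    simp
  rw [← map_sub, norm_j]
  refine sqrt_le_of_rep hε.le ⟨M, fun _ => 0, hM.sub h3, (cost_zero_le M _).trans ?_⟩
  have h4 : l1 M (x - castQ (x.mapRange g (hg0 0 rfl))) ≤ S M * δ := by
    have h5 : l1 M (x - castQ (x.mapRange g (hg0 0 rfl))) ≤ ∑ m ∈ range M, (N m : ℝ) * δ := by
      refine sum_le_sum fun m _ => ?_
      unfold n1
      refine (sum_le_sum (g := fun _ => δ) fun i _ => ?_).trans (by simp)
      rw [blk_apply, Finsupp.sub_apply, h2]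
      exact hg _
    rw [← sum_mul] at h5
    have h6 : ∑ m ∈ range M, (N m : ℝ) + 1 = S M := by exact_mod_cast sum_N M
    nlinarith
  have h7 : (S M : ℝ) * (S M * δ) = ε ^ 2 := by rw [hδ]; field_simp
  rw [← h7]
  exact mul_le_mul_of_nonneg_left h4 (by positivity)

theorem dense_rat : DenseRange fun z : I →₀ ℚ => j (castQ z) := by
  rw [Metric.denseRange_iff]
  intro y ε hε
  obtain ⟨x, hx⟩ := exists_near y (half_pos hε)
  obtain ⟨z, hz⟩ := exists_near_rat x (half_pos hε)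
  refine ⟨z, ?_⟩
  rw [dist_eq_norm]
  have := norm_sub_le_norm_sub_add_norm_sub y (j x) (j (castQ z))
  linarith

instance : TopologicalSpace.SeparableSpace R :=
  TopologicalSpace.SeparableSpace.of_denseRange _ dense_rat

theorem e₀_ne : j e₀ ≠ 0 := by
  intro h
  have h1 := norm_j e₀
  rw [h, norm_zero] at h1
  have h2 : 1 / 2 ≤ q e₀ := le_csInf (rep_exists e₀) fun _ h => rep_e₀ h
  have h3 : 0 < Real.sqrt (q e₀) := Real.sqrt_pos.mpr (by linarith)
  linarith

theorem bound (T : R →L[ℝ] R) : ∃ K, 0 ≤ K ∧ ∀ x, ‖T x‖ ≤ K * ‖x‖ := by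
  have h := T.continuous.continuousAt (x := 0)
  rw [Metric.continuousAt_iff] at h
  obtain ⟨δ, hδ, h⟩ := h 1 one_pos
  refine ⟨2 / δ, by positivity, fun x => ?_⟩
  rcases eq_or_ne x 0 with rfl | hx
  · simp
  have hp : 0 < ‖x‖ := norm_pos_iff.mpr hx
  set t := δ / (2 * ‖x‖) with ht
  have ht0 : 0 < t := by positivity
  have h1 : Real.sqrt |t ^ 2| = t := by rw [abs_of_nonneg (sq_nonneg t), Real.sqrt_sq ht0.le]
  have h2 := @h (t ^ 2 • x) (by
    rw [dist_zero_right, norm_smul_R, h1, ht]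
    have : δ / (2 * ‖x‖) * ‖x‖ = δ / 2 := by field_simp
    linarith)
  rw [map_zero, dist_zero_right, map_smul, norm_smul_R, h1] at h2
  have h3 : 2 / δ * ‖x‖ = 1 / t := by rw [ht]; field_simp
  rw [h3, le_div_iff₀ ht0]
  linarith

theorem needle' (m : ℕ) : ∃ (ε : ℝ) (v : Fin (N m) → E₀), 0 < ε ∧
    2 * S m * ε ^ 2 ≤ 32 / ((m : ℝ) + 1) ∧ (∀ i, ‖j (v i)‖ ≤ ε) ∧
    j (d m) = (N m : ℝ)⁻¹ • ∑ i, j (v i) := by
  obtain ⟨u, w, hu, hw, h⟩ := needle m
  have hN : (0 : ℝ) < N m := by exact_mod_cast N_pos m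
  have hS := one_le_S' m
  have hm : (0 : ℝ) ≤ m := Nat.cast_nonneg m
  have hL0 : (0 : ℝ) < ((S m : ℝ) * (m + 1)) ^ 4 := by positivity
  have hL := log_N m
  set L := Real.log (N m) with hLd
  have hLp : 0 < L := by linarith
  have hη := η_pos m
  have hs := s_pos m
  set κ : ℝ := 1 / (η m * L * s m) with hκ
  have hκ0 : 0 < κ := by positivity
  refine ⟨2 * Real.sqrt κ, fun i => κ • (u i - w i), by positivity, ?_, fun i => ?_, ?_⟩
  · rw [mul_pow, Real.sq_sqrt hκ0.le]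
    have e : 2 * (S m : ℝ) * (2 ^ 2 * κ) = 32 * (S m ^ 3 * ((m : ℝ) + 1) ^ 3) / L := by
      rw [hκ]; unfold η s; field_simp; norm_num
    rw [e, div_le_div_iff₀ hLp (by positivity)]
    have h1 : (S m : ℝ) ^ 3 * ((m : ℝ) + 1) ^ 3 * (m + 1) ≤ ((S m : ℝ) * (m + 1)) ^ 4 := by
      have : (0 : ℝ) ≤ (S m : ℝ) ^ 3 * ((m : ℝ) + 1) ^ 4 := by positivity
      nlinarith
    nlinarith
  · rw [map_smul, norm_smul_R, abs_of_pos hκ0, map_sub, mul_comm]
    refine mul_le_mul_of_nonneg_right ((norm_sub_le _ _).trans ?_) (Real.sqrt_nonneg _)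
    have h1 := sqrt_le_of_rep (x := u i) zero_le_one (by simpa using hu i)
    have h2 := sqrt_le_of_rep (x := w i) zero_le_one (by simpa using hw i)
    rw [norm_j, norm_j]
    linarith
  · rw [← map_sum, ← smul_sum, h, ← map_smul, X, smul_smul, smul_smul, smul_smul]
    have : (N m : ℝ)⁻¹ * κ * (N m * (η m * L)) * s m = 1 := by rw [hκ]; field_simp
    rw [this, one_smul]

theorem small (A : ℝ) {γ : ℝ} (hγ : 0 < γ) :
    ∃ K : ℕ, ∀ m : ℕ, K ≤ m → A * (32 / ((m : ℝ) + 1)) ≤ γ := by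
  obtain ⟨K, hK⟩ := exists_nat_ge (A * 32 / γ)
  refine ⟨K, fun m hm => ?_⟩
  have h1 : (K : ℝ) ≤ m := by exact_mod_cast hm
  rw [div_le_iff₀ hγ] at hK
  rw [← mul_div_assoc, div_le_iff₀ (by positivity)]
  nlinarith

theorem dual_zero (φ : R →L[ℝ] ℝ) (x : R) : φ x = 0 := by
  obtain ⟨K, hK0, hK⟩ := bound (φ.smulRight (j e₀))
  have he : 0 < ‖j e₀‖ := norm_pos_iff.mpr e₀_ne
  have h1 : ∀ y : R, ∀ ε : ℝ, ‖y‖ ≤ ε → |φ y| ≤ (K / ‖j e₀‖) ^ 2 * ε ^ 2 := by
    intro y ε hy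
    have h2 := hK y
    rw [ContinuousLinearMap.smulRight_apply, norm_smul_R] at h2
    have h3 : Real.sqrt |φ y| ≤ K / ‖j e₀‖ * ε := by
      rw [div_mul_eq_mul_div, le_div_iff₀ he]
      exact h2.trans (mul_le_mul_of_nonneg_left hy hK0)
    rw [← mul_pow]
    exact (Real.sqrt_le_iff.mp h3).2
  have h2 : ∀ z, φ (j (castQ z)) = 0 := by
    intro z
    rw [← abs_nonpos_iff]
    refine le_of_forall_pos_le_add fun γ hγ => ?_
    obtain ⟨K₀, hK₀⟩ := small ((K / ‖j e₀‖) ^ 2) hγ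
    obtain ⟨m, hm, hd⟩ := d_freq z K₀
    obtain ⟨ε, v, hε, h3, h4, h5⟩ := needle' m
    have hN : (0 : ℝ) < N m := by exact_mod_cast N_pos m
    rw [← hd, h5, map_smul, map_sum, smul_eq_mul, abs_mul, abs_of_pos (inv_pos.mpr hN), zero_add]
    have h6 : |∑ i, φ (j (v i))| ≤ N m * ((K / ‖j e₀‖) ^ 2 * ε ^ 2) := by
      refine (abs_sum_le_sum_abs _ _).trans ((sum_le_sum fun i _ => h1 _ ε (h4 i)).trans ?_)
      simp
    have hS := one_le_S' m
    have h7 : ε ^ 2 ≤ 32 / ((m : ℝ) + 1) := by nlinarith [sq_nonneg ε]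
    have h8 := mul_le_mul_of_nonneg_left h7 (sq_nonneg (K / ‖j e₀‖))
    rw [inv_mul_le_iff₀ hN]
    exact h6.trans (mul_le_mul_of_nonneg_left (h8.trans (hK₀ m hm)) hN.le)
  exact dense_rat.induction_on x (isClosed_eq φ.continuous continuous_const) h2

theorem near_line (T : R →L[ℝ] R) (K : ℝ) (hK0 : 0 ≤ K) (hK : ∀ x, ‖T x‖ ≤ K * ‖x‖) (m : ℕ) :
    ∃ ρ : ℝ, ‖T (j (d m)) - ρ • j (d m)‖ ^ 2 ≤ (K + 3) ^ 2 * (32 / ((m : ℝ) + 1)) := by
  obtain ⟨ε, v, hε, h3, h4, h5⟩ := needle' m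
  have hN1 : (1 : ℝ) ≤ N m := by exact_mod_cast N_pos m
  have hN : (0 : ℝ) < N m := by linarith
  have hS := one_le_S' m
  choose z hz using fun i => exists_near (T (j (v i))) (show 0 < ε / N m by positivity)
  have hεN : ε / N m ≤ ε := div_le_self hε.le hN1
  have h6 : ∀ i, Rep (z i) (((K + 2) * ε) ^ 2) := by
    intro i
    apply rep_sq
    rw [← norm_j]
    have h7 := norm_sub_le_norm_sub_add_norm_sub (j (z i)) (T (j (v i))) 0
    rw [sub_zero, sub_zero, norm_sub_rev] at h7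
    have h8 := (hK _).trans (mul_le_mul_of_nonneg_left (h4 i) hK0)
    have := hz i
    nlinarith
  obtain ⟨ρ, hρ⟩ := rep_avg m z _ h6
  have h7 := hρ.smul (N m : ℝ)⁻¹
  set σ := Real.sqrt (2 * S m) with hσ
  have hσ1 : 1 ≤ σ := Real.one_le_sqrt.mpr (by linarith)
  have hσ2 : σ ^ 2 = 2 * S m := Real.sq_sqrt (by linarith)
  have e1 : |(N m : ℝ)⁻¹| * (2 * S m * (N m * ((K + 2) * ε) ^ 2)) = (σ * ((K + 2) * ε)) ^ 2 := by
    rw [abs_of_pos (inv_pos.mpr hN), mul_pow σ, hσ2]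
    field_simp
  rw [e1] at h7
  have h8 := sqrt_le_of_rep (by positivity) h7
  rw [← norm_j] at h8
  refine ⟨(N m : ℝ)⁻¹ * ρ * s m, ?_⟩
  have e2 : T (j (d m)) - ((N m : ℝ)⁻¹ * ρ * s m) • j (d m)
      = (N m : ℝ)⁻¹ • ∑ i, (T (j (v i)) - j (z i))
        + j ((N m : ℝ)⁻¹ • (∑ i, z i - ρ • X m)) := by
    conv_lhs => rw [← map_smul j]
    rw [h5, map_smul T, map_sum T, sum_sub_distrib, X]
    simp only [map_smul, map_sub, map_sum, smul_sub, smul_smul, mul_assoc]
    abel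
  have h9 : ‖(N m : ℝ)⁻¹ • ∑ i, (T (j (v i)) - j (z i))‖ ≤ ε := by
    rw [norm_smul_R]
    have a1 : Real.sqrt |(N m : ℝ)⁻¹| ≤ 1 := by
      rw [Real.sqrt_le_one, abs_of_pos (inv_pos.mpr hN)]
      exact inv_le_one_of_one_le₀ hN1
    have a2 : ‖∑ i, (T (j (v i)) - j (z i))‖ ≤ ε := by
      refine (norm_sum_le _ _).trans ((sum_le_sum fun i _ => (hz i).le).trans ?_)
      rw [sum_const, card_univ, Fintype.card_fin, nsmul_eq_mul]
      exact le_of_eq (by field_simp)
    nlinarith [norm_nonneg (∑ i, (T (j (v i)) - j (z i))), Real.sqrt_nonneg |(N m : ℝ)⁻¹|]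
  have h10 : ‖T (j (d m)) - ((N m : ℝ)⁻¹ * ρ * s m) • j (d m)‖ ≤ (K + 3) * (σ * ε) := by
    rw [e2]
    refine (norm_add_le _ _).trans ?_
    nlinarith
  refine (pow_le_pow_left₀ (norm_nonneg _) h10 2).trans ?_
  rw [mul_pow, mul_pow σ, hσ2]
  exact mul_le_mul_of_nonneg_left h3 (sq_nonneg _)

theorem eigen (T : R →L[ℝ] R) (z : I →₀ ℚ) : ∃ c : ℝ, T (j (castQ z)) = c • j (castQ z) := by
  obtain ⟨K, hK0, hK⟩ := bound T
  have hcl : IsClosed ((Submodule.span ℝ {j (castQ z)} : Submodule ℝ R) : Set R) :=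
    Submodule.closed_of_finiteDimensional _
  have h1 : T (j (castQ z)) ∈ closure ((Submodule.span ℝ {j (castQ z)} : Submodule ℝ R) : Set R) := by
    rw [Metric.mem_closure_iff]
    intro γ hγ
    obtain ⟨K₀, hK₀⟩ := small ((K + 3) ^ 2) (show 0 < (γ / 2) ^ 2 by positivity)
    obtain ⟨m, hm, hd⟩ := d_freq z K₀
    obtain ⟨ρ, hρ⟩ := near_line T K hK0 hK m
    rw [hd] at hρ
    refine ⟨ρ • j (castQ z), Submodule.smul_mem _ _ (Submodule.mem_span_singleton_self _), ?_⟩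
    rw [dist_eq_norm]
    have h2 := pow_le_pow_left₀ (norm_nonneg _) (le_refl ‖T (j (castQ z)) - ρ • j (castQ z)‖) 2
    have h3 := abs_le_of_sq_le_sq' (hρ.trans (hK₀ m hm)) (by positivity)
    linarith [h3.2]
  rw [hcl.closure_eq] at h1
  obtain ⟨c, hc⟩ := Submodule.mem_span_singleton.mp h1
  exact ⟨c, hc.symm⟩

theorem castQ_add (z z' : I →₀ ℚ) : castQ (z + z') = castQ z + castQ z' := by
  ext k
  simp [castQ]

theorem rigid (T : R →L[ℝ] R) : ∃ c : ℝ, ∀ x, T x = c • x := by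
  have h0 : ∃ z₀, j (castQ z₀) ≠ 0 := by
    by_contra h
    push Not at h
    exact e₀_ne (dense_rat.induction_on (p := fun y => y = 0) (j e₀)
      (isClosed_eq continuous_id continuous_const) h)
  obtain ⟨z₀, hz₀⟩ := h0
  obtain ⟨c, hc⟩ := eigen T z₀
  refine ⟨c, fun x => dense_rat.induction_on (p := fun y => T y = c • y) x
    (isClosed_eq T.continuous (continuous_const_smul c)) fun z => ?_⟩
  obtain ⟨a, ha⟩ := eigen T z
  obtain ⟨b, hb⟩ := eigen T (z₀ + z)
  rw [castQ_add, map_add, map_add, hc, ha, smul_add] at hb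
  rcases eq_or_ne a b with rfl | hab
  · have h1 : (c - a) • j (castQ z₀) = 0 := by
      rw [sub_smul, add_right_cancel hb, sub_self]
    have h2 : c = a := sub_eq_zero.mp ((smul_eq_zero.mp h1).resolve_right hz₀)
    rw [ha, h2]
  · have h1 : (a - b) • j (castQ z) = (b - c) • j (castQ z₀) := by
      rw [sub_smul, sub_smul, sub_eq_sub_iff_add_eq_add, add_comm, hb]
    have h2 : j (castQ z) = ((a - b)⁻¹ * (b - c)) • j (castQ z₀) := by
      rw [mul_smul, ← h1, smul_smul, inv_mul_cancel₀ (sub_ne_zero.mpr hab), one_smul]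
    rw [h2, map_smul, hc, smul_comm]

end Pool.Agent.H322Z.Rigid
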