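import Pool.Agent.H322Z.Rigid.Compl

set_option autoImplicit false

/-!
# The product of the rigid space with the space of all sequences has no hypercyclic operator
-/

namespace Pool.Agent.H322Z.Rigid

open Finset Filter Topology

/-- a continuous linear map from the space of all sequences into `R` has finite rank -/
theorem finite_rank (A : (ℕ → ℝ) →L[ℝ] R) :
    ∃ G : Submodule ℝ R, FiniteDimensional ℝ G ∧ ∀ y, A y ∈ G := by
  classical
  have h1 : A ⁻¹' Metric.ball 0 1 ∈ 𝓝 (0 : ℕ → ℝ) :=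
    A.continuous.continuousAt.preimage_mem_nhds (by rw [map_zero]; exact Metric.ball_mem_nhds _ one_pos)
  rw [nhds_pi, Filter.mem_pi'] at h1
  obtain ⟨t, U, hU, h1⟩ := h1
  have h2 : ∀ y : ℕ → ℝ, (∀ i ∈ t, y i = 0) → A y = 0 := by
    intro y hy
    by_contra h
    have hp : 0 < ‖A y‖ := norm_pos_iff.mpr h
    have h3 : ((1 / ‖A y‖) ^ 2) • y ∈ A ⁻¹' Metric.ball 0 1 := by
      apply h1
      intro i hi
      rw [Pi.smul_apply, hy i hi, smul_zero]
      exact mem_of_mem_nhds (hU i)
    rw [Set.mem_preimage, mem_ball_zero_iff, map_smul, norm_smul_R, abs_of_nonneg (sq_nonneg _),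
      Real.sqrt_sq (by positivity), one_div_mul_cancel hp.ne'] at h3
    exact lt_irrefl _ h3
  refine ⟨Submodule.span ℝ (t.image fun i => A (Pi.single i 1) : Finset R), inferInstance,
    fun y => ?_⟩
  have h3 : A y = ∑ i ∈ t, y i • A (Pi.single i 1) := by
    have h4 := h2 (y - ∑ i ∈ t, y i • (Pi.single i 1 : ℕ → ℝ)) (by
      intro i hi
      rw [Pi.sub_apply, Finset.sum_apply, sum_eq_single i]
      · simp
      · intro k _ hk; simp [hk.symm]
      · intro h; exact absurd hi h)
    rw [map_sub, map_sum, sub_eq_zero] at h4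
    rw [h4]
    exact sum_congr rfl fun i _ => map_smul _ _ _
  rw [h3]
  exact Submodule.sum_mem _ fun i hi => Submodule.smul_mem _ _
    (Submodule.subset_span (mem_coe.mpr (mem_image_of_mem _ hi)))

theorem not_finiteDimensional_R : ¬ FiniteDimensional ℝ R := by
  intro h
  obtain ⟨φ, hφ⟩ := Module.Projective.exists_dual_ne_zero ℝ e₀_ne
  exact hφ (dual_zero ⟨φ, φ.continuous_of_finiteDimensional⟩ _)

theorem dual_infinite : ¬ FiniteDimensional ℝ ((R × (ℕ → ℝ)) →L[ℝ] ℝ) := by
  intro h
  let φ : ℕ → ((R × (ℕ → ℝ)) →L[ℝ] ℝ) := fun i =>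
    (ContinuousLinearMap.proj i).comp (ContinuousLinearMap.snd ℝ R (ℕ → ℝ))
  have hli : LinearIndependent ℝ φ := by
    rw [linearIndependent_iff']
    intro t g hg i hi
    have h1 := congrArg (fun ψ : (R × (ℕ → ℝ)) →L[ℝ] ℝ => ψ (0, Pi.single i 1)) hg
    simp only [FunLike.coe_sum, Finset.sum_apply, zero_apply] at h1
    rw [sum_eq_single i] at h1
    · simpa [φ] using h1
    · intro k _ hk; simp [φ, hk]
    · intro h; exact absurd hi h
  exact Module.Finite.not_linearIndependent_of_infinite φ hli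

theorem no_hypercyclic (T : (R × (ℕ → ℝ)) →L[ℝ] (R × (ℕ → ℝ))) (x : R × (ℕ → ℝ)) :
    ¬ Dense (Set.range fun n : ℕ => (⇑T)^[n] x) := by
  intro hd
  obtain ⟨c, hc⟩ := rigid ((ContinuousLinearMap.fst ℝ R (ℕ → ℝ)).comp
    (T.comp (ContinuousLinearMap.inl ℝ R (ℕ → ℝ))))
  obtain ⟨G, hG, hA⟩ := finite_rank ((ContinuousLinearMap.fst ℝ R (ℕ → ℝ)).comp
    (T.comp (ContinuousLinearMap.inr ℝ R (ℕ → ℝ))))
  set H : Submodule ℝ R := G ⊔ Submodule.span ℝ {x.1} with hH
  have h1 : ∀ n : ℕ, ((⇑T)^[n] x).1 ∈ H := by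
    intro n
    induction n with
    | zero => exact Submodule.mem_sup_right (Submodule.mem_span_singleton_self _)
    | succ n ih =>
      rw [Function.iterate_succ_apply']
      generalize (⇑T)^[n] x = y at ih
      have e : y = (y.1, 0) + (0, y.2) := by simp
      rw [e, map_add, Prod.fst_add]
      refine H.add_mem ?_ (Submodule.mem_sup_left (hA y.2))
      have := hc y.1
      simp only [ContinuousLinearMap.comp_apply, ContinuousLinearMap.inl_apply,
        ContinuousLinearMap.coe_fst'] at this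
      rw [this]
      exact H.smul_mem _ ih
  have hcl : IsClosed (Prod.fst ⁻¹' (H : Set R) : Set (R × (ℕ → ℝ))) :=
    (Submodule.closed_of_finiteDimensional H).preimage continuous_fst
  have h2 : ∀ y : R, y ∈ H := by
    intro y
    have h3 : closure (Set.range fun n : ℕ => (⇑T)^[n] x) ⊆ Prod.fst ⁻¹' (H : Set R) :=
      closure_minimal (by rintro _ ⟨n, rfl⟩; exact h1 n) hcl
    exact h3 (hd (y, 0))
  apply not_finiteDimensional_R
  have h3 : H = ⊤ := eq_top_iff.mpr fun y _ => h2 y
  have h4 : FiniteDimensional ℝ H := inferInstance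
  rw [h3] at h4
  exact Module.Finite.equiv Submodule.topEquiv

end Pool.Agent.H322Z.Rigid
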