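import Mathlib

set_option autoImplicit false

/-!
# Ribe's quasi-linear functional
-/

namespace Pool.Agent.H322Z.Rigid

open Finset

/-- `t log |t|` -/
noncomputable def f (t : ℝ) : ℝ := t * Real.log t

theorem f_zero : f 0 = 0 := by simp [f]

theorem f_one : f 1 = 0 := by simp [f]

theorem f_mul (c t : ℝ) : f (c * t) = c * f t + c * t * Real.log c := by
  rcases eq_or_ne c 0 with rfl | hc
  · simp [f]
  rcases eq_or_ne t 0 with rfl | ht
  · simp [f]
  unfold f
  rw [Real.log_mul hc ht]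
  ring

theorem abs_f_one_add (u : ℝ) (hu : |u| ≤ 1) : |f (1 + u)| ≤ 2 * |u| := by
  have h1 := abs_le.mp hu
  rcases eq_or_lt_of_le (show 0 ≤ 1 + u by linarith) with h | h
  · rw [← h, f_zero, abs_zero]; positivity
  have h2 := Real.log_le_sub_one_of_pos h
  have h3 := Real.one_sub_inv_le_log_of_pos h
  have h4 : (1 + u) * (1 - (1 + u)⁻¹) = u := by field_simp; ring
  have h5 := mul_le_mul_of_nonneg_left h2 h.le
  have h6 := mul_le_mul_of_nonneg_left h3 h.le
  have h7 := le_abs_self u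
  have h8 := neg_abs_le u
  have h9 := abs_nonneg u
  unfold f
  rw [abs_le]
  constructor
  · linarith
  · have : (1 + u) * u ≤ 2 * |u| := by nlinarith
    have e : 1 + u - 1 = u := by ring
    rw [e] at h5
    linarith

theorem abs_f_small (u : ℝ) (hu : |u| ≤ 1) : |f u| ≤ 2 * Real.sqrt |u| := by
  rcases eq_or_ne u 0 with rfl | h0
  · simp [f_zero]
  have hp : 0 < |u| := abs_pos.mpr h0
  set w := Real.sqrt |u| with hw
  have hw0 : 0 < w := Real.sqrt_pos.mpr hp
  have hw1 : w ≤ 1 := Real.sqrt_le_one.mpr hu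
  have hww : w * w = |u| := Real.mul_self_sqrt hp.le
  have h1 := Real.abs_log_mul_self_lt w hw0 hw1
  have h2 : Real.log u = 2 * Real.log w := by
    rw [← Real.log_abs, ← hww, Real.log_mul hw0.ne' hw0.ne']
    ring
  unfold f
  rw [abs_mul, h2, ← hww, abs_mul, abs_two]
  rw [abs_mul, abs_of_pos hw0] at h1
  nlinarith

theorem defect_aux (s t θ : ℝ) (hθ : 0 < θ) (h : |t| ≤ |s|) :
    |f (s + t) - f s - f t| ≤ 2 * (θ * |s| + |t| / θ) ∧
      |f (s + t) - f s - f t| ≤ 2 * (θ * |t| + |s| / θ) := by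
  rcases eq_or_ne s 0 with rfl | hs
  · have : t = 0 := by simpa using h
    subst this
    simp [f_zero]
  have hp : 0 < |s| := abs_pos.mpr hs
  obtain ⟨u, rfl⟩ : ∃ u, t = s * u := ⟨t / s, by field_simp⟩
  have hu : |u| ≤ 1 := by
    rw [abs_mul] at h
    nlinarith [abs_nonneg u]
  have e1 : f (s + s * u) - f s - f (s * u) = s * (f (1 + u) - f u) := by
    have e2 : s + s * u = s * (1 + u) := by ring
    have e3 : f s = s * Real.log s := rfl
    rw [e2, f_mul, f_mul, e3]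
    ring
  set w := Real.sqrt |u| with hw
  have hw0 : 0 ≤ w := Real.sqrt_nonneg _
  have hw1 : w ≤ 1 := Real.sqrt_le_one.mpr hu
  have hww : w * w = |u| := Real.mul_self_sqrt (abs_nonneg u)
  have h1 := abs_f_one_add u hu
  have h2 := abs_f_small u hu
  have h3 : |f (1 + u) - f u| ≤ 4 * w := by
    have := abs_sub (f (1 + u)) (f u)
    nlinarith
  have h4 : 2 * w ≤ θ + w * w / θ := by
    have : θ + w * w / θ - 2 * w = (θ - w) ^ 2 / θ := by field_simp; ring
    have h5 : 0 ≤ (θ - w) ^ 2 / θ := by positivity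
    linarith
  have h5 : 2 * w ≤ θ * (w * w) + 1 / θ := by
    have : θ * (w * w) + 1 / θ - 2 * w = (θ * w - 1) ^ 2 / θ := by field_simp; ring
    have h5 : 0 ≤ (θ * w - 1) ^ 2 / θ := by positivity
    linarith
  rw [e1, abs_mul, abs_mul, ← hww]
  have h6 := mul_le_mul_of_nonneg_left h3 hp.le
  have h7 := mul_le_mul_of_nonneg_left h4 hp.le
  have h8 := mul_le_mul_of_nonneg_left h5 hp.le
  constructor
  · have e : 2 * (θ * |s| + |s| * (w * w) / θ) = 2 * (|s| * (θ + w * w / θ)) := by ring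
    rw [e]; linarith
  · have e : 2 * (θ * (|s| * (w * w)) + |s| / θ) = 2 * (|s| * (θ * (w * w) + 1 / θ)) := by ring
    rw [e]; linarith

theorem defect (s t θ : ℝ) (hθ : 0 < θ) :
    |f (s + t) - f s - f t| ≤ 2 * (θ * |s| + |t| / θ) := by
  rcases le_total |t| |s| with h | h
  · exact (defect_aux s t θ hθ h).1
  · have := (defect_aux t s θ hθ h).2
    have e : f (s + t) - f s - f t = f (t + s) - f t - f s := by rw [add_comm s t]; ring
    rwa [e]

/-- a generic many-term defect bound -/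
theorem defect_sum {V ι : Type*} [AddCommMonoid V] (g n : V → ℝ) (C : ℝ) (hC : 0 ≤ C)
    (hg : g 0 = 0) (hn0 : n 0 = 0) (hn : ∀ a, 0 ≤ n a) (hadd : ∀ a b, n (a + b) ≤ n a + n b)
    (hdef : ∀ a b, |g (a + b) - g a - g b| ≤ C * (n a + n b)) (s : Finset ι) (a : ι → V) :
    n (∑ j ∈ s, a j) ≤ ∑ j ∈ s, n (a j) ∧
      |g (∑ j ∈ s, a j) - ∑ j ∈ s, g (a j)| ≤ C * s.card * ∑ j ∈ s, n (a j) := by
  classical
  induction s using Finset.induction_on with
  | empty => simp [hg, hn0]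
  | insert x s hx ih =>
    rw [sum_insert hx, sum_insert hx, sum_insert hx, card_insert_of_notMem hx]
    obtain ⟨h1, h2⟩ := ih
    have h3 := hadd (a x) (∑ j ∈ s, a j)
    have h4 := hdef (a x) (∑ j ∈ s, a j)
    refine ⟨by linarith, ?_⟩
    have h5 : g (a x + ∑ j ∈ s, a j) - (g (a x) + ∑ j ∈ s, g (a j))
        = (g (a x + ∑ j ∈ s, a j) - g (a x) - g (∑ j ∈ s, a j))
          + (g (∑ j ∈ s, a j) - ∑ j ∈ s, g (a j)) := by ring
    rw [h5]
    refine (abs_add_le _ _).trans ?_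
    have h6 : C * (n (a x) + n (∑ j ∈ s, a j)) ≤ C * (n (a x) + ∑ j ∈ s, n (a j)) :=
      mul_le_mul_of_nonneg_left (by linarith) hC
    have h7 : 0 ≤ C * s.card * n (a x) := by have := hn (a x); positivity
    push_cast
    nlinarith

variable {n : ℕ}

/-- the `ℓ¹` norm -/
noncomputable def n1 (a : Fin n → ℝ) : ℝ := ∑ i, |a i|

/-- Ribe's functional -/
noncomputable def F (a : Fin n → ℝ) : ℝ := ∑ i, f (a i) - f (∑ i, a i)

theorem n1_nonneg (a : Fin n → ℝ) : 0 ≤ n1 a := sum_nonneg fun _ _ => abs_nonneg _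

theorem n1_zero : n1 (0 : Fin n → ℝ) = 0 := by simp [n1]

theorem n1_add (a b : Fin n → ℝ) : n1 (a + b) ≤ n1 a + n1 b := by
  unfold n1
  rw [← sum_add_distrib]
  exact sum_le_sum fun i _ => abs_add_le _ _

theorem n1_smul (c : ℝ) (a : Fin n → ℝ) : n1 (c • a) = |c| * n1 a := by
  unfold n1
  rw [mul_sum]
  exact sum_congr rfl fun i _ => by rw [Pi.smul_apply, smul_eq_mul, abs_mul]

theorem F_zero : F (0 : Fin n → ℝ) = 0 := by simp [F, f_zero]

theorem F_smul (c : ℝ) (a : Fin n → ℝ) : F (c • a) = c * F a := by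
  unfold F
  simp only [Pi.smul_apply, smul_eq_mul]
  rw [← mul_sum, f_mul]
  simp only [f_mul]
  rw [sum_add_distrib, ← mul_sum, ← sum_mul, ← mul_sum]
  ring

theorem F_add (a b : Fin n → ℝ) (θ : ℝ) (hθ : 0 < θ) :
    |F (a + b) - F a - F b| ≤ 4 * (θ * n1 a + n1 b / θ) := by
  have e : F (a + b) - F a - F b = ∑ i, (f (a i + b i) - f (a i) - f (b i))
      - (f (∑ i, a i + ∑ i, b i) - f (∑ i, a i) - f (∑ i, b i)) := by
    unfold F
    simp only [Pi.add_apply, sum_add_distrib, sum_sub_distrib]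
    ring
  rw [e]
  refine (abs_sub _ _).trans ?_
  have h1 : |∑ i, (f (a i + b i) - f (a i) - f (b i))| ≤ 2 * (θ * n1 a + n1 b / θ) := by
    refine (abs_sum_le_sum_abs _ _).trans ?_
    refine (sum_le_sum fun i _ => defect (a i) (b i) θ hθ).trans (le_of_eq ?_)
    unfold n1
    rw [← mul_sum, sum_add_distrib, ← mul_sum, ← sum_div]
  have h2 := defect (∑ i, a i) (∑ i, b i) θ hθ
  have h3 : |∑ i, a i| ≤ n1 a := abs_sum_le_sum_abs _ _
  have h4 : |∑ i, b i| ≤ n1 b := abs_sum_le_sum_abs _ _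
  have h5 := mul_le_mul_of_nonneg_left h3 hθ.le
  have h6 := div_le_div_of_nonneg_right h4 hθ.le
  linarith

theorem abs_F_le (a : Fin n → ℝ) : |F a| ≤ 2 * n * n1 a := by
  have h := (defect_sum f (fun t => |t|) 2 (by norm_num) f_zero abs_zero abs_nonneg abs_add_le
    (fun s t => by simpa using defect s t 1 one_pos) univ a).2
  rw [card_univ, Fintype.card_fin] at h
  unfold F
  rw [abs_sub_comm]
  exact h

theorem n1_sum {ι : Type*} (s : Finset ι) (a : ι → Fin n → ℝ) :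
    n1 (∑ j ∈ s, a j) ≤ ∑ j ∈ s, n1 (a j) :=
  (defect_sum F n1 4 (by norm_num) F_zero n1_zero n1_nonneg n1_add
    (fun a b => by simpa using F_add a b 1 one_pos) s a).1

theorem F_sum {ι : Type*} (s : Finset ι) (a : ι → Fin n → ℝ) :
    |F (∑ j ∈ s, a j) - ∑ j ∈ s, F (a j)| ≤ 4 * s.card * ∑ j ∈ s, n1 (a j) :=
  (defect_sum F n1 4 (by norm_num) F_zero n1_zero n1_nonneg n1_add
    (fun a b => by simpa using F_add a b 1 one_pos) s a).2

theorem F_sum' {ι : Type*} (s : Finset ι) (a : ι → Fin n → ℝ) :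
    |F (∑ j ∈ s, a j) - ∑ j ∈ s, F (a j)| ≤ 4 * n * ∑ j ∈ s, n1 (a j) := by
  refine (abs_sub _ _).trans ?_
  have h1 := abs_F_le (∑ j ∈ s, a j)
  have h2 : |∑ j ∈ s, F (a j)| ≤ 2 * n * ∑ j ∈ s, n1 (a j) := by
    refine (abs_sum_le_sum_abs _ _).trans ?_
    rw [mul_sum]
    exact sum_le_sum fun j _ => abs_F_le _
  have h3 := mul_le_mul_of_nonneg_left (n1_sum s a) (show (0 : ℝ) ≤ 2 * n by positivity)
  linarith

theorem n1_single (i : Fin n) : n1 (Pi.single i (1 : ℝ)) = 1 := by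
  unfold n1
  rw [sum_eq_single i]
  · simp
  · intro j _ hj; simp [hj]
  · simp

theorem F_single (i : Fin n) : F (Pi.single i (1 : ℝ)) = 0 := by
  unfold F
  rw [sum_eq_single i, sum_eq_single i]
  · simp
  · intro j _ hj; simp [hj]
  · simp
  · intro j _ hj; simp [hj, f_zero]
  · simp

theorem n1_const (hn : 0 < n) : n1 (fun _ : Fin n => (n : ℝ)⁻¹) = 1 := by
  have : (0 : ℝ) < n := by exact_mod_cast hn
  unfold n1
  rw [sum_const, card_univ, Fintype.card_fin, nsmul_eq_mul, abs_of_pos (by positivity)]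
  field_simp

theorem F_const (hn : 0 < n) : F (fun _ : Fin n => (n : ℝ)⁻¹) = -Real.log n := by
  have : (0 : ℝ) < n := by exact_mod_cast hn
  unfold F
  rw [sum_const, sum_const, card_univ, Fintype.card_fin, nsmul_eq_mul, nsmul_eq_mul,
    mul_inv_cancel₀ this.ne', f_one, f, Real.log_inv]
  field_simp
  ring

end Pool.Agent.H322Z.Rigid
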