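import Pool.Agent.H322Z.Rigid.Ribe

set_option autoImplicit false

/-!
# The quasi-normed space glued from Ribe blocks
-/

namespace Pool.Agent.H322Z.Rigid

open Finset

theorem exists_params : ∃ S N : ℕ → ℕ, S 0 = 1 ∧ (∀ m, S (m + 1) = S m + N m) ∧
    ∀ m, 0 < N m ∧ ((S m : ℝ) * (m + 1)) ^ 4 ≤ Real.log (N m) := by
  let S : ℕ → ℕ := fun m => Nat.rec 1 (fun k s => s + 3 ^ ((s * (k + 1)) ^ 4)) m
  refine ⟨S, fun m => 3 ^ ((S m * (m + 1)) ^ 4), rfl, fun m => rfl, fun m => ⟨by positivity, ?_⟩⟩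
  beta_reduce
  generalize S m = s
  push_cast
  rw [Real.log_pow]
  push_cast
  have h1 : 1 ≤ Real.log 3 := by
    rw [Real.le_log_iff_exp_le (by norm_num)]
    exact Real.exp_one_lt_three.le
  have h2 : (0 : ℝ) ≤ ((s : ℝ) * (m + 1)) ^ 4 := by positivity
  nlinarith

noncomputable def S : ℕ → ℕ := exists_params.choose

noncomputable def N : ℕ → ℕ := exists_params.choose_spec.choose

theorem S_zero : S 0 = 1 := exists_params.choose_spec.choose_spec.1

theorem S_succ (m : ℕ) : S (m + 1) = S m + N m := exists_params.choose_spec.choose_spec.2.1 m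

theorem N_pos (m : ℕ) : 0 < N m := (exists_params.choose_spec.choose_spec.2.2 m).1

theorem log_N (m : ℕ) : ((S m : ℝ) * (m + 1)) ^ 4 ≤ Real.log (N m) :=
  (exists_params.choose_spec.choose_spec.2.2 m).2

theorem S_mono : Monotone S := monotone_nat_of_le_succ fun m => by rw [S_succ]; omega

theorem one_le_S (m : ℕ) : 1 ≤ S m := S_zero ▸ S_mono (Nat.zero_le m)

theorem N_lt_S {k m : ℕ} (h : k < m) : N k + 1 ≤ S m := by
  have h1 := S_mono (show k + 1 ≤ m from h)
  have h2 := one_le_S k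
  rw [S_succ] at h1
  omega

theorem sum_N (m : ℕ) : ∑ k ∈ range m, N k + 1 = S m := by
  induction m with
  | zero => simp [S_zero]
  | succ m ih => rw [sum_range_succ, S_succ]; omega

theorem one_le_S' (m : ℕ) : (1 : ℝ) ≤ S m := by exact_mod_cast one_le_S m

noncomputable def η (m : ℕ) : ℝ := 1 / (4 * (S m : ℝ))

noncomputable def s (m : ℕ) : ℝ := 1 / (((m : ℝ) + 1) ^ 3 * S m)

theorem η_pos (m : ℕ) : 0 < η m := by
  have := one_le_S' m
  unfold η; positivity

theorem η_le (m : ℕ) : 4 * η m ≤ 1 := by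
  have := one_le_S' m
  unfold η
  rw [mul_one_div, div_le_one (by positivity)]
  linarith

theorem η_N {k m : ℕ} (h : k < m) : 4 * η m * N k ≤ 1 := by
  have h1 := one_le_S' m
  have h2 : (N k : ℝ) + 1 ≤ S m := by exact_mod_cast N_lt_S h
  have : 4 * η m * N k = N k / S m := by unfold η; field_simp
  rw [this, div_le_one (by positivity)]
  linarith

theorem s_pos (m : ℕ) : 0 < s m := by
  have := one_le_S' m
  unfold s; positivity

/-- coordinates -/
abbrev I : Type := (m : ℕ) × Fin (N m)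

abbrev E₀ : Type := I →₀ ℝ

/-- the `m`-th block -/
noncomputable def blk (m : ℕ) : E₀ →ₗ[ℝ] (Fin (N m) → ℝ) where
  toFun x := fun i => x ⟨m, i⟩
  map_add' _ _ := rfl
  map_smul' _ _ := rfl

theorem blk_apply (m : ℕ) (x : E₀) (i : Fin (N m)) : blk m x i = x ⟨m, i⟩ := rfl

def Supp (M : ℕ) (x : E₀) : Prop := ∀ m, M ≤ m → blk m x = 0

theorem Supp.mono {M M' : ℕ} {x : E₀} (h : Supp M x) (hM : M ≤ M') : Supp M' x :=
  fun m hm => h m (hM.trans hm)

theorem Supp.add {M : ℕ} {x y : E₀} (hx : Supp M x) (hy : Supp M y) : Supp M (x + y) :=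
  fun m hm => by rw [map_add, hx m hm, hy m hm, add_zero]

theorem Supp.sub {M : ℕ} {x y : E₀} (hx : Supp M x) (hy : Supp M y) : Supp M (x - y) :=
  fun m hm => by rw [map_sub, hx m hm, hy m hm, sub_zero]

theorem Supp.smul {M : ℕ} {x : E₀} (hx : Supp M x) (c : ℝ) : Supp M (c • x) :=
  fun m hm => by rw [map_smul, hx m hm, smul_zero]

theorem supp_zero (M : ℕ) : Supp M 0 := fun _ _ => map_zero _

theorem supp_sum {ι : Type*} {M : ℕ} (t : Finset ι) (x : ι → E₀) (h : ∀ j ∈ t, Supp M (x j)) :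
    Supp M (∑ j ∈ t, x j) :=
  fun m hm => by rw [map_sum]; exact sum_eq_zero fun j hj => h j hj m hm

theorem exists_supp (x : E₀) : ∃ M, Supp M x := by
  refine ⟨x.support.sup (fun k => k.1) + 1, fun m hm => ?_⟩
  ext i
  rw [blk_apply, Pi.zero_apply]
  by_contra h
  have h1 : (⟨m, i⟩ : I) ∈ x.support := Finsupp.mem_support_iff.mpr h
  have h2 := le_sup (f := fun k : I => k.1) h1
  simp only at h2
  omega

noncomputable def l1 (M : ℕ) (x : E₀) : ℝ := ∑ m ∈ range M, n1 (blk m x)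

theorem l1_nonneg (M : ℕ) (x : E₀) : 0 ≤ l1 M x := sum_nonneg fun _ _ => n1_nonneg _

theorem l1_smul (M : ℕ) (c : ℝ) (x : E₀) : l1 M (c • x) = |c| * l1 M x := by
  unfold l1
  rw [mul_sum]
  exact sum_congr rfl fun m _ => by rw [map_smul, n1_smul]

theorem l1_mono {M M' : ℕ} {x : E₀} (h : Supp M x) (hM : M ≤ M') : l1 M' x = l1 M x := by
  induction M', hM using Nat.le_induction with
  | base => rfl
  | succ k hk ih =>
    unfold l1 at ih ⊢
    rw [sum_range_succ, ih, h k hk, n1_zero, add_zero]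

noncomputable def castQ (z : I →₀ ℚ) : E₀ := z.mapRange (fun q : ℚ => (q : ℝ)) (by simp)

noncomputable def enum : ℕ → (I →₀ ℚ) := (exists_surjective_nat (I →₀ ℚ)).choose

theorem enum_surj : Function.Surjective enum := (exists_surjective_nat (I →₀ ℚ)).choose_spec

open Classical in
/-- the target directions -/
noncomputable def d (m : ℕ) : E₀ :=
  if Supp m (castQ (enum (Nat.unpair m).1)) ∧ l1 m (castQ (enum (Nat.unpair m).1)) ≤ m then
    castQ (enum (Nat.unpair m).1) else 0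

theorem d_spec (m : ℕ) : Supp m (d m) ∧ l1 m (d m) ≤ m := by
  unfold d
  split_ifs with h
  · exact h
  · refine ⟨supp_zero m, ?_⟩
    simp [l1, n1_zero]

theorem d_freq (z : I →₀ ℚ) (K : ℕ) : ∃ m, K ≤ m ∧ d m = castQ z := by
  obtain ⟨k, rfl⟩ := enum_surj z
  obtain ⟨M, hM⟩ := exists_supp (castQ (enum k))
  obtain ⟨L, hL⟩ := exists_nat_ge (l1 M (castQ (enum k)))
  have h1 := Nat.right_le_pair k (K + M + L)
  refine ⟨Nat.pair k (K + M + L), by omega, ?_⟩
  unfold d
  rw [Nat.unpair_pair, if_pos]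
  refine ⟨hM.mono (by omega), ?_⟩
  rw [l1_mono hM (by omega)]
  refine hL.trans ?_
  exact_mod_cast (by omega : L ≤ Nat.pair k (K + M + L))

noncomputable def X (m : ℕ) : E₀ := s m • d m

theorem supp_X (m : ℕ) : Supp m (X m) := (d_spec m).1.smul _

noncomputable def res (M : ℕ) (r : ℕ → ℝ) (x : E₀) : E₀ := x - ∑ k ∈ range M, r k • X k

noncomputable def term (m : ℕ) (ρ : ℝ) (a : Fin (N m) → ℝ) : ℝ := |ρ - η m * F a| + n1 a

noncomputable def cost (M : ℕ) (r : ℕ → ℝ) (x : E₀) : ℝ :=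
  ∑ m ∈ range M, term m (r m) (blk m (res M r x))

theorem term_nonneg (m : ℕ) (ρ : ℝ) (a : Fin (N m) → ℝ) : 0 ≤ term m ρ a :=
  add_nonneg (abs_nonneg _) (n1_nonneg _)

theorem term_zero (m : ℕ) (ρ : ℝ) : term m ρ 0 = |ρ| := by simp [term, F_zero, n1_zero]

theorem term_smul (m : ℕ) (c ρ : ℝ) (a : Fin (N m) → ℝ) :
    term m (c * ρ) (c • a) = |c| * term m ρ a := by
  unfold term
  rw [F_smul, n1_smul, mul_add, ← abs_mul]
  congr 2
  ring

theorem term_add (m : ℕ) (ρ ρ' θ : ℝ) (hθ : 0 < θ) (a a' : Fin (N m) → ℝ) :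
    term m (ρ + ρ') (a + a') ≤ (1 + θ) * term m ρ a + (1 + 1 / θ) * term m ρ' a' := by
  unfold term
  have h1 := F_add a a' θ hθ
  have h2 := n1_add a a'
  have h3 := η_pos m
  have h4 := η_le m
  have e : ρ + ρ' - η m * F (a + a')
      = (ρ - η m * F a) + (ρ' - η m * F a') - η m * (F (a + a') - F a - F a') := by ring
  have h5 : |ρ + ρ' - η m * F (a + a')| ≤ |ρ - η m * F a| + |ρ' - η m * F a'|
      + η m * |F (a + a') - F a - F a'| := by
    rw [e]
    refine (abs_sub _ _).trans ?_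
    rw [abs_mul, abs_of_pos h3]
    have := abs_add_le (ρ - η m * F a) (ρ' - η m * F a')
    linarith
  have h6 : 0 ≤ θ * n1 a + n1 a' / θ := by
    have := n1_nonneg a
    have := n1_nonneg a'
    positivity
  have h7 : η m * |F (a + a') - F a - F a'| ≤ θ * n1 a + n1 a' / θ := by
    have := mul_le_mul_of_nonneg_left h1 h3.le
    nlinarith
  have h8 : 0 ≤ θ * |ρ - η m * F a| := by positivity
  have h9 : 0 ≤ 1 / θ * |ρ' - η m * F a'| := by positivity
  have e2 : n1 a' / θ = 1 / θ * n1 a' := by ring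
  rw [e2] at h7
  nlinarith

theorem term_le (m : ℕ) (a : Fin (N m) → ℝ) : term m 0 a ≤ (N m + 1) * n1 a := by
  unfold term
  rw [zero_sub, abs_neg, abs_mul, abs_of_pos (η_pos m)]
  have h1 := mul_le_mul_of_nonneg_left (abs_F_le a) (η_pos m).le
  have h2 := η_le m
  have h3 : 0 ≤ (N m : ℝ) * n1 a := mul_nonneg (Nat.cast_nonneg _) (n1_nonneg a)
  nlinarith

theorem cost_nonneg (M : ℕ) (r : ℕ → ℝ) (x : E₀) : 0 ≤ cost M r x :=
  sum_nonneg fun _ _ => term_nonneg _ _ _

theorem supp_res {M : ℕ} {x : E₀} (h : Supp M x) (r : ℕ → ℝ) : Supp M (res M r x) :=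
  h.sub (supp_sum _ _ fun k hk => ((supp_X k).mono (mem_range.mp hk).le).smul _)

theorem res_succ (M : ℕ) (r : ℕ → ℝ) (x : E₀) : res (M + 1) r x = res M r (x - r M • X M) := by
  unfold res
  rw [sum_range_succ]
  abel

theorem cost_succ {M : ℕ} {x : E₀} (h : Supp M x) (r : ℕ → ℝ) :
    cost (M + 1) r x = cost M r (x - r M • X M) + |r M| := by
  unfold cost
  rw [sum_range_succ, res_succ, supp_res (h.sub ((supp_X M).smul _)) r M le_rfl, term_zero]

theorem cost_congr (M : ℕ) {r r' : ℕ → ℝ} (h : ∀ k < M, r k = r' k) (x : E₀) :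
    cost M r x = cost M r' x := by
  have h1 : res M r x = res M r' x := by
    unfold res
    congr 1
    exact sum_congr rfl fun k hk => by rw [h k (mem_range.mp hk)]
  unfold cost
  rw [h1]
  exact sum_congr rfl fun k hk => by rw [h k (mem_range.mp hk)]

theorem cost_lift {M M' : ℕ} {x : E₀} (h : Supp M x) (hM : M ≤ M') (r : ℕ → ℝ) :
    ∃ r', cost M' r' x = cost M r x := by
  induction M', hM using Nat.le_induction with
  | base => exact ⟨r, rfl⟩
  | succ k hk ih =>
    obtain ⟨r', hr'⟩ := ih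
    refine ⟨Function.update r' k 0, ?_⟩
    rw [cost_succ (h.mono hk), Function.update_self, zero_smul, sub_zero, abs_zero, add_zero, ← hr']
    exact cost_congr k (fun j hj => Function.update_of_ne hj.ne _ _) x

theorem cost_smul (M : ℕ) (r : ℕ → ℝ) (c : ℝ) (x : E₀) :
    cost M (fun k => c * r k) (c • x) = |c| * cost M r x := by
  have h1 : res M (fun k => c * r k) (c • x) = c • res M r x := by
    unfold res
    rw [smul_sub, smul_sum]
    congr 1
    exact sum_congr rfl fun k _ => by rw [mul_smul]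
  unfold cost
  rw [h1, mul_sum]
  exact sum_congr rfl fun k _ => by rw [map_smul, term_smul]

theorem cost_add (M : ℕ) (r r' : ℕ → ℝ) (x x' : E₀) (θ : ℝ) (hθ : 0 < θ) :
    cost M (fun k => r k + r' k) (x + x') ≤ (1 + θ) * cost M r x + (1 + 1 / θ) * cost M r' x' := by
  have h1 : res M (fun k => r k + r' k) (x + x') = res M r x + res M r' x' := by
    unfold res
    simp only [add_smul, sum_add_distrib]
    abel
  unfold cost
  rw [h1, mul_sum, mul_sum, ← sum_add_distrib]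
  exact sum_le_sum fun k _ => by rw [map_add]; exact term_add k _ _ θ hθ _ _

theorem cost_zero_le (M : ℕ) (x : E₀) : cost M (fun _ => 0) x ≤ S M * l1 M x := by
  have h1 : res M (fun _ => 0) x = x := by simp [res]
  unfold cost l1
  rw [h1, mul_sum]
  refine sum_le_sum fun k hk => (term_le k _).trans ?_
  refine mul_le_mul_of_nonneg_right ?_ (n1_nonneg _)
  exact_mod_cast N_lt_S (mem_range.mp hk)

theorem cost_X (m : ℕ) : cost m (fun _ => 0) (X m) ≤ 1 / ((m : ℝ) + 1) ^ 2 := by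
  refine (cost_zero_le m _).trans ?_
  have h1 := (d_spec m).2
  have h2 := one_le_S' m
  unfold X
  rw [l1_smul, abs_of_pos (s_pos m)]
  have e : (S m : ℝ) * (s m * l1 m (d m)) = l1 m (d m) / ((m : ℝ) + 1) ^ 3 := by
    unfold s; field_simp
  rw [e, div_le_div_iff₀ (by positivity) (by positivity)]
  have : (0 : ℝ) ≤ ((m : ℝ) + 1) ^ 2 := by positivity
  nlinarith

/-- the base vector -/
noncomputable def e₀ : E₀ := Finsupp.single ⟨0, ⟨0, N_pos 0⟩⟩ 1

theorem blk_single_self (m : ℕ) (i : Fin (N m)) :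
    blk m (Finsupp.single ⟨m, i⟩ 1) = Pi.single i 1 := by
  ext j
  rw [blk_apply, Finsupp.single_apply, Pi.single_apply]
  by_cases h : j = i
  · simp [h]
  · have : ¬ ((⟨m, i⟩ : I) = ⟨m, j⟩) := by
      intro h'
      apply h
      simpa using h'.symm
    simp [h, this]

theorem blk_single_ne {m k : ℕ} (h : m ≠ k) (i : Fin (N m)) :
    blk k (Finsupp.single ⟨m, i⟩ 1) = 0 := by
  ext j
  rw [blk_apply, Finsupp.single_apply, if_neg]
  · rfl
  · intro h'
    exact h (congrArg Sigma.fst h')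

theorem cost_down {M : ℕ} {x : E₀} (h : Supp M x) (r : ℕ → ℝ) :
    ∃ r', cost M r' x ≤ (1 + 1 / ((M : ℝ) + 1) ^ 2) * cost (M + 1) r x := by
  have hθ : (0 : ℝ) < 1 / ((M : ℝ) + 1) ^ 2 := by positivity
  have h1 := cost_add M r (fun _ => r M * 0) (x - r M • X M) (r M • X M) _ hθ
  rw [sub_add_cancel, cost_smul M (fun _ => 0)] at h1
  refine ⟨_, h1.trans ?_⟩
  rw [cost_succ h, mul_add]
  have h2 := mul_le_mul_of_nonneg_left (cost_X M) (abs_nonneg (r M))
  have h3 := mul_le_mul_of_nonneg_left h2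
    (show (0 : ℝ) ≤ 1 + 1 / (1 / ((M : ℝ) + 1) ^ 2) by positivity)
  have e : (1 + 1 / (1 / ((M : ℝ) + 1) ^ 2)) * (|r M| * (1 / ((M : ℝ) + 1) ^ 2))
      = (1 + 1 / ((M : ℝ) + 1) ^ 2) * |r M| := by field_simp; ring
  linarith

theorem supp_e₀ : Supp 1 e₀ := fun m hm => blk_single_ne (by omega) _

theorem cost_e₀ (M : ℕ) : ∀ r, ((M : ℝ) + 2) / (2 * (M + 1)) ≤ cost (M + 1) r e₀ := by
  induction M with
  | zero =>
    intro r
    unfold cost
    rw [sum_range_one]
    have h1 : blk 0 (res (0 + 1) r e₀) = Pi.single ⟨0, N_pos 0⟩ 1 := by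
      unfold res
      rw [sum_range_one, map_sub, map_smul, supp_X 0 0 le_rfl, smul_zero, sub_zero]
      exact blk_single_self 0 _
    rw [h1]
    unfold term
    rw [n1_single]
    have := abs_nonneg (r 0 - η 0 * F (Pi.single (⟨0, N_pos 0⟩ : Fin (N 0)) (1 : ℝ)))
    norm_num
  | succ M ih =>
    intro r
    obtain ⟨r', hr'⟩ := cost_down (supp_e₀.mono (show 1 ≤ M + 1 by omega)) r
    have h1 := (ih r').trans hr'
    push_cast at h1 ⊢
    have hM : (0 : ℝ) ≤ M := Nat.cast_nonneg M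
    have h2 : (1 + 1 / ((M : ℝ) + 1 + 1) ^ 2) * (((M : ℝ) + 1 + 2) / (2 * (M + 1 + 1)))
        ≤ ((M : ℝ) + 2) / (2 * (M + 1)) := by
      rw [← sub_nonneg]
      have e : ((M : ℝ) + 2) / (2 * (M + 1))
          - (1 + 1 / ((M : ℝ) + 1 + 1) ^ 2) * (((M : ℝ) + 1 + 2) / (2 * (M + 1 + 1)))
          = 1 / (2 * (M + 1) * (M + 2) ^ 3) := by field_simp; ring
      rw [e]
      positivity
    have h3 : (0 : ℝ) < 1 + 1 / ((M : ℝ) + 1 + 1) ^ 2 := by positivity
    exact le_of_mul_le_mul_left (h2.trans h1) h3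

/-- representations of cost at most `c` -/
def Rep (x : E₀) (c : ℝ) : Prop := ∃ M r, Supp M x ∧ cost M r x ≤ c

theorem rep_exists (x : E₀) : ∃ c, Rep x c := by
  obtain ⟨M, hM⟩ := exists_supp x
  exact ⟨_, M, fun _ => 0, hM, le_rfl⟩

theorem Rep.nonneg {x : E₀} {c : ℝ} (h : Rep x c) : 0 ≤ c := by
  obtain ⟨M, r, -, h⟩ := h
  exact (cost_nonneg M r x).trans h

theorem Rep.mono {x : E₀} {c c' : ℝ} (h : Rep x c) (hc : c ≤ c') : Rep x c' := by
  obtain ⟨M, r, h1, h2⟩ := h
  exact ⟨M, r, h1, h2.trans hc⟩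

theorem Rep.lift {x : E₀} {c : ℝ} (h : Rep x c) :
    ∃ M₀, ∀ M, M₀ ≤ M → Supp M x ∧ ∃ r, cost M r x ≤ c := by
  obtain ⟨M₀, r, h1, h2⟩ := h
  refine ⟨M₀, fun M hM => ⟨h1.mono hM, ?_⟩⟩
  obtain ⟨r', hr'⟩ := cost_lift h1 hM r
  exact ⟨r', hr'.le.trans h2⟩

theorem Rep.smul {x : E₀} {A : ℝ} (h : Rep x A) (c : ℝ) : Rep (c • x) (|c| * A) := by
  obtain ⟨M, r, h1, h2⟩ := h
  exact ⟨M, _, h1.smul c, (cost_smul M r c x).le.trans
    (mul_le_mul_of_nonneg_left h2 (abs_nonneg c))⟩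

theorem Rep.add {x y : E₀} {A B : ℝ} (hx : Rep x A) (hy : Rep y B) (θ : ℝ) (hθ : 0 < θ) :
    Rep (x + y) ((1 + θ) * A + (1 + 1 / θ) * B) := by
  obtain ⟨M₁, h₁⟩ := hx.lift
  obtain ⟨M₂, h₂⟩ := hy.lift
  obtain ⟨a1, r, a2⟩ := h₁ (M₁ + M₂) (by omega)
  obtain ⟨b1, r', b2⟩ := h₂ (M₁ + M₂) (by omega)
  refine ⟨M₁ + M₂, _, a1.add b1, (cost_add _ r r' x y θ hθ).trans ?_⟩
  exact add_le_add (mul_le_mul_of_nonneg_left a2 (by positivity))
    (mul_le_mul_of_nonneg_left b2 (by positivity))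

theorem rep_e₀ {c : ℝ} (h : Rep e₀ c) : 1 / 2 ≤ c := by
  obtain ⟨M₀, h₀⟩ := h.lift
  obtain ⟨-, r, h1⟩ := h₀ (M₀ + 1) (by omega)
  refine le_trans ?_ ((cost_e₀ M₀ r).trans h1)
  rw [div_le_div_iff₀ (by positivity) (by positivity)]
  have : (0 : ℝ) ≤ M₀ := Nat.cast_nonneg _
  linarith

theorem rep_block (m : ℕ) (u : E₀) (hu : ∀ k, k ≠ m → blk k u = 0) (ρ : ℝ) :
    Rep (u + ρ • X m) (term m ρ (blk m u)) := by
  have hs : Supp (m + 1) u := fun k hk => hu k (by omega)
  refine ⟨m + 1, fun k => if k = m then ρ else 0,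
    hs.add (((supp_X m).mono (by omega)).smul _), ?_⟩
  have h1 : res (m + 1) (fun k => if k = m then ρ else 0) (u + ρ • X m) = u := by
    unfold res
    rw [sum_range_succ, sum_eq_zero]
    · simp
    · intro k hk
      simp [(mem_range.mp hk).ne]
  unfold cost
  rw [h1, sum_range_succ, sum_eq_zero]
  · simp
  · intro k hk
    simp [(mem_range.mp hk).ne, hu k (mem_range.mp hk).ne, term_zero]

theorem term_avg (k : ℕ) {n : ℕ} (ρ : Fin n → ℝ) (a : Fin n → Fin (N k) → ℝ) (C : ℝ) (hC : 0 ≤ C)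
    (h : η k * |F (∑ j, a j) - ∑ j, F (a j)| ≤ C * ∑ j, n1 (a j)) :
    term k (∑ j, ρ j) (∑ j, a j) ≤ (1 + C) * ∑ j, term k (ρ j) (a j) := by
  unfold term
  have e : ∑ j, ρ j - η k * F (∑ j, a j)
      = ∑ j, (ρ j - η k * F (a j)) - η k * (F (∑ j, a j) - ∑ j, F (a j)) := by
    rw [sum_sub_distrib, ← mul_sum]; ring
  have h1 : |∑ j, ρ j - η k * F (∑ j, a j)| ≤ ∑ j, |ρ j - η k * F (a j)| + C * ∑ j, n1 (a j) := by
    rw [e]
    refine (abs_sub _ _).trans (add_le_add (abs_sum_le_sum_abs _ _) ?_)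
    rwa [abs_mul, abs_of_pos (η_pos k)]
  have h2 := n1_sum univ a
  have h3 : 0 ≤ C * ∑ j, |ρ j - η k * F (a j)| :=
    mul_nonneg hC (sum_nonneg fun _ _ => abs_nonneg _)
  rw [sum_add_distrib]
  nlinarith

/-- sums of `N m` small vectors are close to the line spanned by `X m` -/
theorem rep_avg (m : ℕ) (z : Fin (N m) → E₀) (δ : ℝ) (h : ∀ j, Rep (z j) δ) :
    ∃ ρ : ℝ, Rep (∑ j, z j - ρ • X m) (2 * S m * (N m * δ)) := by
  choose M₀ hM₀ using fun j => (h j).lift
  set M := univ.sup M₀ + (m + 1) with hM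
  have h1 : ∀ j, Supp M (z j) ∧ ∃ r, cost M r (z j) ≤ δ := fun j =>
    hM₀ j M (by have := le_sup (f := M₀) (mem_univ j); omega)
  choose hs r hr using h1
  set a : E₀ := ∑ j, res M (r j) (z j) with ha
  set ρ : ℝ := ∑ j, r j m - η m * F (blk m a) with hρ
  have hmM : m ∈ range M := mem_range.mpr (by omega)
  refine ⟨ρ, M, fun k => ∑ j, r j k - if k = m then ρ else 0,
    (supp_sum _ _ fun j _ => hs j).sub (((supp_X m).mono (by omega)).smul _), ?_⟩
  have h2 : res M (fun k => ∑ j, r j k - if k = m then ρ else 0) (∑ j, z j - ρ • X m) = a := by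
    rw [ha]
    unfold res
    simp only [sub_smul, sum_sub_distrib, sum_smul, ite_smul, zero_smul]
    rw [sum_ite_eq' (range M) m, if_pos hmM, sum_comm]
    abel
  have hS := one_le_S' m
  have h3 : ∀ k ∈ range M, term k (∑ j, r j k - if k = m then ρ else 0) (blk k a)
      ≤ 2 * S m * ∑ j, term k (r j k) (blk k (res M (r j) (z j))) := by
    intro k _
    have h4 : 0 ≤ ∑ j, term k (r j k) (blk k (res M (r j) (z j))) :=
      sum_nonneg fun _ _ => term_nonneg _ _ _
    have h5 : 0 ≤ ∑ j, n1 (blk k (res M (r j) (z j))) := sum_nonneg fun _ _ => n1_nonneg _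
    rcases lt_trichotomy k m with hk | rfl | hk
    · rw [if_neg hk.ne, sub_zero, ha, map_sum]
      refine (term_avg k _ _ (N k) (Nat.cast_nonneg _) ?_).trans
        (mul_le_mul_of_nonneg_right ?_ h4)
      · have h6 := mul_le_mul_of_nonneg_left
          (F_sum' univ fun j => blk k (res M (r j) (z j))) (η_pos k).le
        have h7 := η_le k
        have h8 : 0 ≤ (N k : ℝ) * ∑ j, n1 (blk k (res M (r j) (z j))) :=
          mul_nonneg (Nat.cast_nonneg _) h5
        nlinarith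
      · have : (N k : ℝ) + 1 ≤ S m := by exact_mod_cast N_lt_S hk
        linarith
    · rw [if_pos rfl, hρ, sub_sub_cancel]
      unfold term
      rw [sub_self, abs_zero, zero_add, ha, map_sum]
      refine (n1_sum _ _).trans ?_
      have h6 : ∑ j, n1 (blk k (res M (r j) (z j))) ≤ ∑ j, (|r j k - η k *
          F (blk k (res M (r j) (z j)))| + n1 (blk k (res M (r j) (z j)))) :=
        sum_le_sum fun j _ => le_add_of_nonneg_left (abs_nonneg _)
      unfold term at h4
      nlinarith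
    · rw [if_neg hk.ne', sub_zero, ha, map_sum]
      refine (term_avg k _ _ 1 zero_le_one ?_).trans (mul_le_mul_of_nonneg_right ?_ h4)
      · have h6 := mul_le_mul_of_nonneg_left
          (F_sum univ fun j => blk k (res M (r j) (z j))) (η_pos k).le
        rw [card_univ, Fintype.card_fin] at h6
        have h7 := η_N hk
        nlinarith
      · linarith
  unfold cost
  rw [h2]
  refine (sum_le_sum h3).trans ?_
  rw [← mul_sum, sum_comm]
  refine mul_le_mul_of_nonneg_left ?_ (by positivity)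
  refine (sum_le_sum fun j _ => hr j).trans ?_
  simp

/-- the direction `X m` is an average of small vectors -/
theorem needle (m : ℕ) : ∃ u w : Fin (N m) → E₀, (∀ i, Rep (u i) 1) ∧ (∀ i, Rep (w i) 1) ∧
    ∑ i, (u i - w i) = (N m * (η m * Real.log (N m))) • X m := by
  have hN : (0 : ℝ) < N m := by exact_mod_cast N_pos m
  set ub : E₀ := (N m : ℝ)⁻¹ • ∑ i : Fin (N m), Finsupp.single ⟨m, i⟩ 1 with hub
  have h1 : blk m ub = fun _ => (N m : ℝ)⁻¹ := by
    rw [hub, map_smul, map_sum]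
    ext j
    simp only [blk_single_self, Pi.smul_apply, Finset.sum_apply, smul_eq_mul]
    rw [sum_eq_single j]
    · simp
    · intro i _ hi; simp [hi.symm]
    · simp
  refine ⟨fun i => Finsupp.single ⟨m, i⟩ 1, fun _ => ub + (η m * F (blk m ub)) • X m,
    fun i => ?_, fun _ => ?_, ?_⟩
  · have := rep_block m (Finsupp.single ⟨m, i⟩ 1) (fun k hk => blk_single_ne hk.symm i) 0
    rw [zero_smul, add_zero, blk_single_self] at this
    unfold term at this
    simpa [F_single, n1_single] using this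
  · have := rep_block m ub (fun k hk => by
      rw [hub, map_smul, map_sum, sum_eq_zero fun i _ => blk_single_ne hk.symm i, smul_zero])
      (η m * F (blk m ub))
    unfold term at this
    rw [sub_self, abs_zero, zero_add] at this
    refine this.mono (le_of_eq ?_)
    rw [h1, n1_const (N_pos m)]
  · rw [sum_sub_distrib, sum_const, card_univ, Fintype.card_fin, h1, F_const (N_pos m),
      ← Nat.cast_smul_eq_nsmul ℝ, smul_add, hub, smul_smul, mul_inv_cancel₀ hN.ne', one_smul,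
      smul_smul]
    rw [sub_add_cancel_left, ← neg_smul]
    congr 1
    ring

end Pool.Agent.H322Z.Rigid
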